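import Pool.Agent.V1129.HTM

set_option autoImplicit false

/-!
MP_e69082_gt, Q1: a c-minimal topological group `G` with a compact open normal subgroup `N` such
that the discrete quotient `G ⧸ N` is not hereditarily minimal (it is not even minimal).
-/

namespace Pool.Agent.V1131.CMin

/-- the group topology `τ` on `G` is minimal: it has no strictly coarser Hausdorff group topology -/
def MinimalTop (G : Type) [Group G] (τ : TopologicalSpace G) : Prop :=
  ∀ σ : TopologicalSpace G, @IsTopologicalGroup G σ _ → @T2Space G σ → τ ≤ σ → σ = τ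

/-- every subgroup, with the subspace topology, is minimal -/
def HereditarilyMinimal (G : Type) [Group G] [TopologicalSpace G] : Prop :=
  ∀ H : Subgroup G, MinimalTop H instTopologicalSpaceSubtype

/-- every closed subgroup, with the subspace topology, is minimal -/
def CMinimal (G : Type) [Group G] [TopologicalSpace G] : Prop :=
  ∀ H : Subgroup G, IsClosed (H : Set G) → MinimalTop H instTopologicalSpaceSubtype

end Pool.Agent.V1131.CMin

namespace Pool.Agent.Results.MP_e69082_gt.NotHereditary

open Topology Filter Pool.Agent.TH54 Pool.Agent.TH54.BU Pool.Agent.V1129.HTM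
open Pool.Agent.V1131.CMin (MinimalTop CMinimal)

/-- There are a c-minimal (even hereditarily minimal) Hausdorff topological group `G` and a compact
open normal subgroup `N` such that the discrete group `G ⧸ N` is not hereditarily minimal; in fact
`G ⧸ N` itself is not minimal. -/
theorem result : ∃ (G : Type) (_ : Group G) (_ : TopologicalSpace G),
    IsTopologicalGroup G ∧ T2Space G ∧ CMinimal G ∧
      Pool.Agent.V1131.CMin.HereditarilyMinimal G ∧
      ∃ (N : Subgroup G) (_ : N.Normal), IsCompact (N : Set G) ∧ IsOpen (N : Set G) ∧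
        DiscreteTopology (G ⧸ N) ∧
        ¬ MinimalTop (G ⧸ N) (QuotientGroup.instTopologicalSpace N) ∧
        ¬ Pool.Agent.V1131.CMin.HereditarilyMinimal (G ⧸ N) := by
  obtain ⟨p0, h⟩ := Pool.Agent.TH54.BU.burnside
  obtain ⟨p, hle, hp⟩ := Nat.exists_infinite_primes p0
  have : Fact p.Prime := ⟨hp⟩
  have hB : Burn p := h p hp hle
  obtain ⟨M, hG, hTop, hTG, hT2, htf, hopen, hZ, ⟨e⟩, -⟩ :=
    Pool.Agent.Y321.HM.exists_ext_gen hB ℕ
  -- the topology on the free Burnside group
  obtain ⟨σ, hσ1, hσ2, hσ3⟩ := burnside_topologizable p hp.one_lt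
  have hinf : Infinite (M ⧸ Subgroup.center M) := by
    by_contra hfin
    rw [not_infinite_iff_finite] at hfin
    have hfB : Finite (BB p) := Finite.of_equiv _ e.toEquiv
    have : @DiscreteTopology (BB p) σ := by
      let _ := σ
      exact Finite.instDiscreteTopology
    exact hσ3 this.eq_bot
  have hexp : ∃ n : ℕ, 0 < n ∧ ∀ x : M ⧸ Subgroup.center M, x ^ n = 1 := by
    refine ⟨p, hp.pos, fun x => ?_⟩
    apply e.injective
    rw [map_pow, map_one]
    obtain ⟨g, hg⟩ := QuotientGroup.mk_surjective (e x)
    rw [← hg, ← QuotientGroup.mk_pow, QuotientGroup.eq_one_iff]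
    exact Subgroup.subset_normalClosure ⟨g, rfl⟩
  obtain ⟨h1, -⟩ := bounded_exponent_extensions p M htf hopen hZ hexp hinf
  have hcomp : IsCompact (Subgroup.center M : Set M) := by
    obtain ⟨ι⟩ := hZ
    have h2 : CompactSpace (Multiplicative ℤ_[p]) := inferInstanceAs (CompactSpace ℤ_[p])
    exact isCompact_iff_compactSpace.2 ι.toHomeomorph.compactSpace
  have hdisc : DiscreteTopology (M ⧸ Subgroup.center M) := QuotientGroup.discreteTopology hopen
  have hbot : (QuotientGroup.instTopologicalSpace (Subgroup.center M) :
      TopologicalSpace (M ⧸ Subgroup.center M)) = ⊥ := hdisc.eq_bot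
  -- transport of the topology to the quotient
  have hnot : ∀ {Q : Type} [Group Q] (τ : TopologicalSpace Q) (ψ : Q ≃* BB p),
      τ = ⊥ → ¬ MinimalTop Q τ := by
    intro Q _ τ ψ hτ hmin
    have hσ' := hmin (TopologicalSpace.induced ψ σ)
      (by
        let _ := σ
        have := hσ1
        exact topologicalGroup_induced ψ)
      (@T2Space.of_injective_continuous _ _ (TopologicalSpace.induced ψ σ) σ hσ2 ψ ψ.injective
        continuous_induced_dom)
      (by rw [hτ]; exact bot_le)
    rw [hτ] at hσ'
    apply hσ3
    have h6 : TopologicalSpace.induced ψ.symm (TopologicalSpace.induced ψ σ) = σ := by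
      rw [induced_compose]
      have : (ψ ∘ ψ.symm : BB p → BB p) = id := by
        ext b
        exact ψ.apply_symm_apply b
      rw [this, induced_id]
    rw [← h6, hσ']
    have h7 := Equiv.induced_symm ψ.toEquiv
    exact (congrFun h7 ⊥).trans coinduced_bot
  refine ⟨M, hG, hTop, hTG, hT2, fun H _ σ' a b c => h1 H σ' a b c,
    fun H σ' a b c => h1 H σ' a b c, Subgroup.center M, inferInstance, hcomp, hopen, hdisc,
    hnot _ e hbot, ?_⟩
  intro hher
  refine hnot _ (Subgroup.topEquiv.trans e) ?_ (hher ⊤)
  have h8 : DiscreteTopology (⊤ : Subgroup (M ⧸ Subgroup.center M)) := inferInstance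
  exact h8.eq_bot

end Pool.Agent.Results.MP_e69082_gt.NotHereditary
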